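import Pool.Agent.R415.VN.Assembly
import Pool.Agent.R415.VN.P01
import Pool.Agent.R415.VN.P02
import Pool.Agent.R415.VN.P03
import Pool.Agent.R415.VN.P04
import Pool.Agent.R415.VN.P05
import Pool.Agent.R415.VN.P06
import Pool.Agent.R415.VN.P07
import Pool.Agent.R415.VN.P08
import Pool.Agent.R415.VN.P09
import Pool.Agent.R415.VN.P10
import Pool.Agent.R415.VN.P11
import Pool.Agent.R415.VN.P12
import Pool.Agent.R415.VN.P13
import Pool.Agent.R415.VN.P14
import Pool.Agent.R415.VN.P15
import Pool.Agent.R415.VN.P16
import Pool.Agent.R415.VN.P17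

/-!
# MP_3341d1_co: the number of edges of a simple Venn diagram is not determined by `(m, n)`

Full answer to Q1, in the negative, already for `m = n = 4`.
-/

namespace Pool.Agent.Results.MP_3341d1_co.EdgeCountVaries

open R415VN

/-- There are simple `4`-dimensional `4`-Venn diagrams `V`, `V'` with `e(V) ≤ 30` and
`e(V') ≥ 32`. -/
theorem result : ∃ V V' : Fin 4 → Set (Fin 4 → ℝ),
    IsSimpleVenn V ∧ IsSimpleVenn V' ∧ edgeCount V ≤ 30 ∧ 32 ≤ edgeCount V' := by
  have s01 : S01 := P01.main
  have s02 : S02 := P02.main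
  have s03 : S03 := P03.main
  have s04 : S04 := P04.main s01 s03
  have s05 : S05 := P05.main s01 s02
  have s06 : S06 := P06.main s01 s02
  have s07 : S07 := P07.main
  have s08 : S08 := P08.main s01 s02 s03
  exact final s08 (P09.main s05 s06 s07 s08) P10.main P11.main (P12.main s04) (P13.main s04)
    P14.main P15.main P16.main P17.main

end Pool.Agent.Results.MP_3341d1_co.EdgeCountVaries
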